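import Pool.Agent.Helper76.CV.Goals

/-!
# Project CV (MP_eec6f5_gt): goal BAC
-/

set_option autoImplicit false

namespace Pool.Agent.Helper94.CV.BAC

open Pool.Agent.Helper76.CV

lemma amgm (S u R : ℝ) (hS : 0 ≤ S) (hu : 0 ≤ u) (hR : 0 ≤ R) (hR2 : R ^ 2 = S + u ^ 2) :
    u * S ≤ 385 / 1000 * R * (S + u ^ 2) := by
  have h0 : 0 ≤ 385 / 1000 * R * (S + u ^ 2) := by positivity
  refine le_of_sq_le_sq ?_ h0
  have e : (385 / 1000 * R * (S + u ^ 2)) ^ 2 = 148225 / 1000000 * (S + u ^ 2) ^ 3 := by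
    have : (385 / 1000 * R * (S + u ^ 2)) ^ 2 =
      148225 / 1000000 * R ^ 2 * (S + u ^ 2) ^ 2 := by ring
    rw [this, hR2]; ring
  rw [e]
  have k1 : 0 ≤ (S - 2 * u ^ 2) ^ 2 * (4 * S + u ^ 2) := by positivity
  have k2 : 0 ≤ (S + u ^ 2) ^ 3 := by positivity
  nlinarith

lemma core (S w d c2 K : ℝ) (hS : 576 / 10000 ≤ S) (hw : 0 < w) (hK : 0 ≤ K)
    (hc : |c2| ≤ K * |d|) (hKw : 385 / 1000 * K + 1 ≤ 40 * w) :
    0 < S + (d / w) ^ 2 ∧
      1 + |c2| / w ^ 2 * (S / (S + (d / w) ^ 2)) + 1 / w * √(S + (d / w) ^ 2) ≤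
        400 / 9 * √(S + (d / w) ^ 2) := by
  have hS0 : 0 < S := by linarith
  have hu0 : 0 ≤ |d| / w := by positivity
  have hdu : (d / w) ^ 2 = (|d| / w) ^ 2 := by rw [div_pow, div_pow, sq_abs]
  rw [hdu]
  obtain ⟨u, hu⟩ : ∃ u, u = |d| / w := ⟨_, rfl⟩
  rw [← hu] at hu0 ⊢
  have hG : 0 < S + u ^ 2 := by positivity
  obtain ⟨R, hR⟩ : ∃ R, R = √(S + u ^ 2) := ⟨_, rfl⟩
  have hR2 : R ^ 2 = S + u ^ 2 := by rw [hR]; exact Real.sq_sqrt hG.le
  have hR0 : 0 < R := by rw [hR]; exact Real.sqrt_pos.mpr hG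
  have hR24 : 24 / 100 ≤ R := by
    rw [hR]
    refine Real.le_sqrt_of_sq_le ?_
    nlinarith [sq_nonneg u]
  rw [← hR]
  refine ⟨hG, ?_⟩
  have h1 : |c2| / w ^ 2 ≤ K * u / w := by
    rw [hu]
    have : K * (|d| / w) / w = K * |d| / w ^ 2 := by field_simp
    rw [this]
    gcongr
  have h2 : u * S / (S + u ^ 2) ≤ 385 / 1000 * R := by
    rw [div_le_iff₀ hG]
    exact amgm S u R hS0.le hu0 hR0.le hR2
  have h3 : |c2| / w ^ 2 * (S / (S + u ^ 2)) ≤ K / w * (385 / 1000 * R) := by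
    calc |c2| / w ^ 2 * (S / (S + u ^ 2)) ≤ K * u / w * (S / (S + u ^ 2)) := by gcongr
      _ = K / w * (u * S / (S + u ^ 2)) := by ring
      _ ≤ _ := by gcongr
  have h4 : K / w * (385 / 1000 * R) + 1 / w * R ≤ 40 * R := by
    have : K / w * (385 / 1000 * R) + 1 / w * R = (385 / 1000 * K + 1) / w * R := by
      field_simp
    rw [this]
    refine mul_le_mul_of_nonneg_right ?_ hR0.le
    rw [div_le_iff₀ hw]
    exact hKw
  linarith

theorem t : BAC := by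
  intro c d c2 w hc hw
  obtain ⟨h1, h2, h3, h4, h5, h6, h7⟩ := hc
  have hs0 : 0 ≤ √(1 - c) := Real.sqrt_nonneg _
  have hs1 : √(1 - c) ≤ 1 := by
    rw [Real.sqrt_le_one]
    linarith
  obtain ⟨hw1, hw2⟩ := abs_le.mp hw
  have hw5 : 1 / 5 ≤ w := by linarith
  have hw0 : 0 < w := by linarith
  refine ⟨hw0, ?_⟩
  rcases h7 with h7 | ⟨h7, h8⟩
  · refine core (1 - c) w d c2 (7072 / 1000) (by linarith) hw0 (by norm_num) ?_ (by linarith)
    refine abs_le_of_sq_le_sq ?_ (by positivity)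
    rw [mul_pow, sq_abs]
    nlinarith [sq_nonneg d]
  · have hs : √(1 - c) ≤ 633 / 1000 := by
      rw [Real.sqrt_le_left (by norm_num)]
      linarith
    refine core (1 - c) w d c2 (2237 / 100) (by linarith) hw0 (by norm_num) ?_ (by linarith)
    refine abs_le_of_sq_le_sq ?_ (by positivity)
    rw [mul_pow, sq_abs]
    nlinarith [sq_nonneg d]

end Pool.Agent.Helper94.CV.BAC
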